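import Pool.Agent.Lib.MP_945c24_nt.Few

/-!
# MP_945c24_nt: the squarefree part of a repunit, outside few exponents
-/

set_option autoImplicit false

namespace Pool.Agent.Results.MP_945c24_nt.FewExponents

/-- There is `C` such that for all `N ≥ 2` and `H ≥ 1`, at most
`exp (C (1 + log N / H) log (2 + log N / H))` odd `n ∈ [3, N]` are such that the squarefree part
`m` of the repunit `R_n = (10 ^ n - 1) / 9` has `C √m max (H, log log m) < 2 ^ ω(m) * n`. -/
theorem result : ∃ C : ℝ, 0 < C ∧ ∀ N H : ℕ, 2 ≤ N → 1 ≤ H →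
    (({n : ℕ | Odd n ∧ 3 ≤ n ∧ n ≤ N ∧ ∃ m s : ℕ, Squarefree m ∧ (10 ^ n - 1) / 9 = m * s ^ 2 ∧
      C * Real.sqrt m * max (H : ℝ) (Real.log (Real.log m)) <
        (2 : ℝ) ^ m.primeFactors.card * (n : ℝ)} : Set ℕ).ncard : ℝ) ≤
      Real.exp (C * (1 + Real.log N / H) * Real.log (2 + Real.log N / H)) := by
  obtain ⟨C, hC, h⟩ := Pool.Agent.MP_945c24_nt.main3
  refine ⟨C, hC, fun N H hN hH => ?_⟩
  have hset : {n : ℕ | Odd n ∧ 3 ≤ n ∧ n ≤ N ∧ ∃ m s : ℕ, Squarefree m ∧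
      (10 ^ n - 1) / 9 = m * s ^ 2 ∧ C * Real.sqrt m * max (H : ℝ) (Real.log (Real.log m)) <
        (2 : ℝ) ^ m.primeFactors.card * (n : ℝ)} =
      {n : ℕ | Odd n ∧ 3 ≤ n ∧ n ≤ N ∧ ∃ m s : ℕ, Squarefree m ∧
      9 * (m * s ^ 2) + 1 = 10 ^ n ∧ C * Real.sqrt m * max (H : ℝ) (Real.log (Real.log m)) <
        (2 : ℝ) ^ m.primeFactors.card * n} := by
    have key : ∀ n t : ℕ, (10 ^ n - 1) / 9 = t ↔ 9 * t + 1 = 10 ^ n := by
      intro n t
      have h9 : 9 ∣ 10 ^ n - 1 := by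
        have := Nat.sub_one_dvd_pow_sub_one 10 n
        simpa using this
      have h1 : 0 < 10 ^ n := by positivity
      constructor
      · intro h2
        rw [← h2, Nat.mul_div_cancel' h9]
        omega
      · intro h2
        rw [← h2, Nat.add_sub_cancel, Nat.mul_div_cancel_left t (by norm_num)]
    simp only [key]
  rw [hset]
  exact h N H hN hH

end Pool.Agent.Results.MP_945c24_nt.FewExponents
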