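import Pool.Agent.Lib.MP_945c24_nt.Fin

/-!
# MP_945c24_nt: the squarefree part of a repunit is large
-/

set_option autoImplicit false

namespace Pool.Agent.Results.MP_945c24_nt.SquarefreePart

/-- There is `C` such that for all odd `n ≥ 3`, if the repunit `R_n = (10 ^ n - 1) / 9` is
`m * s ^ 2`, then `2 ^ ω(m) * n ≤ C √m log m`. -/
theorem result : ∃ C : ℝ, 0 < C ∧ ∀ n m s : ℕ, Odd n → 3 ≤ n → (10 ^ n - 1) / 9 = m * s ^ 2 →
    (2 : ℝ) ^ m.primeFactors.card * (n : ℝ) ≤ C * Real.sqrt m * Real.log m := by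
  obtain ⟨C, hC, h⟩ := Pool.Agent.MP_945c24_nt.main2
  refine ⟨C, hC, fun n m s hn hn3 hR => h n m s hn hn3 ?_⟩
  have h9 : 9 ∣ 10 ^ n - 1 := by
    have := Nat.sub_one_dvd_pow_sub_one 10 n
    simpa using this
  have h1 : 0 < 10 ^ n := by positivity
  rw [← hR, Nat.mul_div_cancel' h9]
  omega

end Pool.Agent.Results.MP_945c24_nt.SquarefreePart
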